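import Pool.Agent.H29.RT.Targets

/-! Module FAR of rt_modules: the theorem for Artin L-functions. -/

set_option autoImplicit false

open Complex MeasureTheory Set Filter Topology

namespace Pool.Agent.H14.RT

open Pool.Agent.H29.RT Pool.Agent.H25.DP Pool.Agent.H25.DL Pool.Agent.H25.MZ

theorem wl_one (z : ℂ) : wl 1 0 z = z := by
  unfold wl
  simp

/-- the family with one member -/
noncomputable def F1 (L : LF) : Fam where
  I := Unit
  J := Empty
  fI := inferInstance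
  fJ := inferInstance
  p := fun _ => ⟨L, 1, 0, one_pos⟩
  q := Empty.elim

theorem F1_N (L : LF) : (F1 L).N = L.num := by
  funext s
  change (∏ i : Unit, L.num (wl 1 0 s)) * ∏ j : Empty, _ = _
  rw [wl_one]
  simp

theorem F1_M (L : LF) : (F1 L).M = L.den := by
  funext s
  change (∏ i : Unit, L.den (wl 1 0 s)) * ∏ j : Empty, _ = _
  rw [wl_one]
  simp

theorem F1_d (L : LF) : (F1 L).d = L.n := by
  change ∑ i : Unit, (1 : ℝ) * (L.n : ℝ) - ∑ j : Empty, _ = _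
  simp

theorem ip_pos (R : ArtinRep) (hd : 1 ≤ R.dim) : 0 < ip R := by
  unfold ip
  have hc : 0 < Nat.card (R.K ≃ₐ[ℚ] R.K) := Nat.card_pos
  apply div_pos _ (by exact_mod_cast hc)
  have : Finite (R.K ≃ₐ[ℚ] R.K) := inferInstance
  let _ : Fintype (R.K ≃ₐ[ℚ] R.K) := Fintype.ofFinite _
  rw [finsum_eq_sum_of_fintype]
  refine lt_of_lt_of_le ?_ (Finset.single_le_sum (f := fun g : R.K ≃ₐ[ℚ] R.K =>
    ‖LinearMap.trace ℂ R.V (R.rho g)‖ ^ 2) (fun g _ => by positivity) (Finset.mem_univ 1))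
  have h1 : LinearMap.trace ℂ R.V (R.rho 1) = (R.dim : ℂ) := by
    rw [map_one, LinearMap.trace_one]
    rfl
  show 0 < ‖LinearMap.trace ℂ R.V (R.rho 1)‖ ^ 2
  rw [h1, Complex.norm_natCast]
  have : (0 : ℝ) < R.dim := by exact_mod_cast hd
  positivity

theorem pf_FAR (h1 : T_FIS) (h2 : T_RVF) (h3 : T_MNA) (h4 : Pool.Agent.H25.DP.T_AA2) : T_FAR := by
  intro R Λ m ε hRat hArt hd hd2 hip hε
  obtain ⟨L, hLn, hLtr, hLord⟩ := h4 R Λ hRat hArt
  have hm : 1 ≤ m := by omega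
  have hm0 : (0 : ℝ) < m := by exact_mod_cast hm
  have hdR : (1 : ℝ) ≤ R.dim := by exact_mod_cast hd
  have hd2R : (R.dim : ℝ) < 2 * m := by exact_mod_cast hd2
  have hFd : (F1 L).d = R.dim := by rw [F1_d, hLn]
  have hα0 : 0 < ip R / (m : ℝ) ^ 2 := div_pos (ip_pos R hd) (by positivity)
  have hα1 : ip R / (m : ℝ) ^ 2 < 1 := (div_lt_one (by positivity)).2 hip
  have hRV : RV (rf (F1 L) m) (ip R / (m : ℝ) ^ 2) := by
    refine h2 (F1 L) m _ hm (fun i => rfl) (fun j => j.elim) hα0 ?_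
    refine h3 R m _ hm hRat ?_
    intro p
    have e1 : (∑ i : (F1 L).I, ((p : ℕ) : ℂ) ^ (-((((F1 L).p i).τ : ℝ) * I) : ℂ) *
        ∑ k, ((F1 L).p i).L.h k p) = LinearMap.trace ℂ R.V (R.fr p) := by
      change (∑ i : Unit, ((p : ℕ) : ℂ) ^ (-(((0 : ℝ) : ℂ) * I) : ℂ) * ∑ k, L.h k p) = _
      rw [hLtr p]
      simp
    have e2 : (∑ j : (F1 L).J, ((p : ℕ) : ℂ) ^ (-((((F1 L).q j).τ : ℝ) * I) : ℂ) *
        ∑ k, ((F1 L).q j).L.h k p) = 0 := by
      change (∑ j : Empty, _) = _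
      simp
    rw [e1, e2, sub_zero]
  obtain ⟨T₀, hT₀⟩ := h1 (F1 L) m (ip R / (m : ℝ) ^ 2) ε (fun i => rfl) (fun j => j.elim) hm
    (by rw [hFd]; linarith) (by rw [hFd]; exact hd2R) hα0 hα1 hRV hε
  refine ⟨max T₀ 1, fun T hT => ?_⟩
  obtain ⟨Z, hZ, hz⟩ := hT₀ T ((le_max_left _ _).trans hT)
  rw [hFd] at hZ
  refine ⟨Z, hZ, fun z hzZ => ?_⟩
  obtain ⟨g1, g2, g3⟩ := hz z hzZ
  refine ⟨g1, g2, ?_⟩
  have hT1 : 1 ≤ T := (le_max_right _ _).trans hT
  have hzp : 0 < z.im := by linarith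
  intro j hj
  unfold ExcM at g3
  have g4 := g3 j
  rw [F1_N, F1_M] at g4
  apply g4
  obtain ⟨k1, k2, k3⟩ := hLord z hzp
  have a1 : AnalyticAt ℂ L.num z := by
    have ho : IsOpen {s : ℂ | 0 < s.im} := isOpen_lt continuous_const Complex.continuous_im
    exact DifferentiableOn.analyticAt (s := {s : ℂ | 0 < s.im})
      (fun s hs => ((L.diff s hs).1).differentiableWithinAt) (ho.mem_nhds hzp)
  have a2 : AnalyticAt ℂ L.den z := by
    have ho : IsOpen {s : ℂ | 0 < s.im} := isOpen_lt continuous_const Complex.continuous_im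
    exact DifferentiableOn.analyticAt (s := {s : ℂ | 0 < s.im})
      (fun s hs => ((L.diff s hs).2).differentiableWithinAt) (ho.mem_nhds hzp)
  obtain ⟨a, ha⟩ := ENat.ne_top_iff_exists.1 k2
  obtain ⟨b, hb⟩ := ENat.ne_top_iff_exists.1 k1
  rw [hj, a1.meromorphicOrderAt_eq, a2.meromorphicOrderAt_eq, ← ha, ← hb, ENat.map_natCast,
    ENat.map_natCast] at k3
  have h5 : ((m * j : ℕ) : ℤ) + (b : ℤ) = (a : ℤ) := by exact_mod_cast k3
  rw [← ha, ← hb]
  have h6 : a = b + m * j := by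
    have : m * j + b = a := by exact_mod_cast h5
    omega
  rw [h6]
  push_cast
  rfl

end Pool.Agent.H14.RT
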